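import Pool.Agent.H31.AD.StepF

/-!
MP_edf562_an: spaces of functions on `[0, 1]` with values in an arbitrary vector space `Z`, with a
topology given by integrals `∫ ρ (f x) dx`, are admissible (and have the simplex property).

Examples: `L_p([0, 1]; Z)` for every `0 < p < ∞` and every quasi-Banach space `Z` (`ρ = ‖·‖ ^ p`),
the space of measurable functions `L_0([0, 1]; Z)` for every metrizable topological vector space `Z`
(`ρ` a bounded F-norm), Orlicz spaces. The space `Z` itself need not be admissible.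
-/

set_option autoImplicit false

open Topology Set

namespace Pool.Agent.Results.MP_edf562_an.FunctionSpaces

open Pool.Agent.H31.AD

universe u v

theorem result {Z : Type u} [AddCommGroup Z] [Module ℝ Z] {A : Type v} (ρ : A → Z → ℝ)
    (hρ : ∀ (a : A) (n : ℕ) (z : Fin n → Z), ∃ B : ℝ, ∀ c : Fin n → ℝ,
      (∀ i, c i ∈ Icc (0 : ℝ) 1) → ρ a (∑ i, c i • z i) ≤ B)
    {S : Type u} [AddCommGroup S] [Module ℝ S] [TopologicalSpace S] [IsTopologicalAddGroup S]
    [ContinuousSMul ℝ S] [T2Space S] (j : StepFun Z →ₗ[ℝ] S) (hj : DenseRange j)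
    (h1 : ∀ U ∈ 𝓝 (0 : S), ∃ a, ∃ ε > 0, ∀ f : StepFun Z,
      ∫ x in (0 : ℝ)..1, ρ a ((f : ℝ → Z) x) < ε → j f ∈ U)
    (h2 : ∀ a, ∀ ε > 0, ∃ U ∈ 𝓝 (0 : S), ∀ f : StepFun Z,
      j f ∈ U → ∫ x in (0 : ℝ)..1, ρ a ((f : ℝ → Z) x) < ε) :
    Admissible S ∧ SimplexProp S :=
  ⟨(simplexProp_of_step ρ hρ j hj h1 h2).admissible, simplexProp_of_step ρ hρ j hj h1 h2⟩

end Pool.Agent.Results.MP_edf562_an.FunctionSpaces
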