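import Pool.Agent.H31.AD.Soft

/-!
MP_edf562_an: compact sets which are, locally and modulo soft subspaces, fibred over C-spaces are
approximable.

This contains: the three-space theorem (if `M` is a closed soft subspace of `E`, for example a
locally convex one, and `E ⧸ M` is admissible, then so is `E`); compact sets with property C (all
finite-dimensional and all countable-dimensional compact sets) are approximable in every space; a
compact set which is a countable union of approximable compact sets is approximable, so a space
which is a countable union of closed admissible subspaces is admissible; compact sets with a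
continuous map to a compact C-space with approximable fibres are approximable.
-/

set_option autoImplicit false

open Topology Set Pointwise

namespace Pool.Agent.Results.MP_edf562_an.SoftLifting

open Pool.Agent.H31.AD

universe u

/-- `S` has a continuous map to a compact Hausdorff space with property C, all of whose fibres are
approximable. -/
def FibredOverC {F : Type u} [AddCommGroup F] [Module ℝ F] [TopologicalSpace F] (S : Set F) :
    Prop :=
  ∃ (Y : Type u) (_ : TopologicalSpace Y) (_ : CompactSpace Y) (_ : T2Space Y) (f : S → Y),
    PropertyC Y ∧ Continuous f ∧ ∀ y, Approximable (Subtype.val '' (f ⁻¹' {y}) : Set F)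

theorem result {E : Type u} [AddCommGroup E] [Module ℝ E] [TopologicalSpace E]
    [IsTopologicalAddGroup E] [ContinuousSMul ℝ E] [T2Space E] {K : Set E} (hK : IsCompact K)
    (h : ∀ L ⊆ K, IsCompact L → L.Nonempty → ∃ (G C : Set E) (M : Submodule ℝ E),
      IsOpen G ∧ (L ∩ G).Nonempty ∧ L ∩ G ⊆ C ∧ IsCompact C ∧ IsClosed (M : Set E) ∧
        Soft M ∧ FibredOverC (M.mkQ '' C)) : Approximable K := by
  refine approximable_of_scattered hK fun L hLK hL hLn => ?_
  obtain ⟨G, C, M, hG, hLG, hLC, hC, hM, hMs, Y, _, _, _, f, hY, hf, hfib⟩ := h L hLK hL hLn
  refine ⟨G, C, hG, hLG, hLC, hC, ?_⟩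
  haveI : IsClosed (M : Set E) := hM
  have hT2 : T2Space (E ⧸ M) := inferInstance
  have hcont : Continuous (M.mkQ : E → E ⧸ M) := M.isOpenQuotientMap_mkQ.continuous
  have ho : IsOpenMap (M.mkQ : E → E ⧸ M) := M.isOpenMap_mkQ
  have hs : Function.Surjective (M.mkQ : E → E ⧸ M) := M.mkQ_surjective
  have hSP : SimplexProp (LinearMap.ker M.mkQ) := by
    rw [Submodule.ker_mkQ]
    exact simplexProp_of_soft hMs
  exact approximable_of_ker M.mkQ hcont ho hs hSP hC
    (approximable_of_fibers (hC.image hcont) hY f hf hfib)

end Pool.Agent.Results.MP_edf562_an.SoftLifting
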