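import Pool.Agent.H31.AD.Dich

/-!
MP_edf562_an: equivalent forms of Klee's problem.

A compact subset `K` of a real topological vector space `E` is called approximable if for every
neighbourhood `U` of `0` there is a continuous map `h` on `K`, with values in a finite-dimensional
subspace of `E`, with `x - h x ∈ U` on `K`; `E` is admissible if all its compact sets are
approximable. Cantor sets (and all compact totally disconnected sets) are approximable. We show
that Klee's problem (is every Hausdorff space admissible?) is equivalent to each of several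
statements on sets obtained from a Cantor set in one step. The first two involve an arbitrary
fixed uncountable compact set `T` of scalars, for example `[0, 1]` or the ternary set. (For
countable `T` the sets in them are approximable, being countable unions of approximable sets.)
-/

set_option autoImplicit false

open Topology Set Pointwise

namespace Pool.Agent.Results.MP_edf562_an.Stars

open Pool.Agent.H31.AD

universe u

theorem result (T : Set ℝ) (hT : IsCompact T) (hTu : ¬ T.Countable) : List.TFAE [
    -- (1) Klee's problem
    ∀ (E : Type u) [AddCommGroup E] [Module ℝ E] [TopologicalSpace E] [IsTopologicalAddGroup E]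
      [ContinuousSMul ℝ E] [T2Space E], Admissible E,
    -- (2) sums `A + T • e`, `A` a Cantor set and `e` a vector
    ∀ (E : Type u) [AddCommGroup E] [Module ℝ E] [TopologicalSpace E] [IsTopologicalAddGroup E]
      [ContinuousSMul ℝ E] [TopologicalSpace.MetrizableSpace E] (α : (ℕ → Bool) → E) (e : E),
      Continuous α → Function.Injective α → Approximable (range α + (fun r : ℝ => r • e) '' T),
    -- (3) products `T • A`, `A` a Cantor set
    ∀ (E : Type u) [AddCommGroup E] [Module ℝ E] [TopologicalSpace E] [IsTopologicalAddGroup E]
      [ContinuousSMul ℝ E] [TopologicalSpace.MetrizableSpace E] (α : (ℕ → Bool) → E),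
      Continuous α → Function.Injective α → Approximable (T • range α),
    -- (4) images of Cantor sets under quotient maps with one-dimensional kernel
    ∀ (E F : Type u) [AddCommGroup E] [Module ℝ E] [TopologicalSpace E]
      [IsTopologicalAddGroup E] [ContinuousSMul ℝ E] [TopologicalSpace.MetrizableSpace E]
      [AddCommGroup F] [Module ℝ F] [TopologicalSpace F] [IsTopologicalAddGroup F]
      [ContinuousSMul ℝ F] [TopologicalSpace.MetrizableSpace F] (π : E →ₗ[ℝ] F)
      (α : (ℕ → Bool) → E), Continuous π → IsOpenMap π → Function.Surjective π →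
        Module.finrank ℝ (LinearMap.ker π) = 1 → Continuous α → Function.Injective α →
          Approximable (π '' range α),
    -- (5) metrizable spaces spanned by a Cantor set
    ∀ (E : Type u) [AddCommGroup E] [Module ℝ E] [TopologicalSpace E] [IsTopologicalAddGroup E]
      [ContinuousSMul ℝ E] [TopologicalSpace.MetrizableSpace E] (α : (ℕ → Bool) → E),
      Continuous α → Function.Injective α → Submodule.span ℝ (range α) = ⊤ → Admissible E,
    -- (6) closed subspaces of spaces with the simplex property
    ∀ (E : Type u) [AddCommGroup E] [Module ℝ E] [TopologicalSpace E] [IsTopologicalAddGroup E]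
      [ContinuousSMul ℝ E] [T2Space E], SimplexProp E →
      ∀ N : Submodule ℝ E, IsClosed (N : Set E) → Admissible N,
    -- (7) compact sets have the simplex property (a statement on their finite subsets)
    ∀ (E : Type u) [AddCommGroup E] [Module ℝ E] [TopologicalSpace E] [IsTopologicalAddGroup E]
      [ContinuousSMul ℝ E] [T2Space E] (K : Set E), IsCompact K → SimplexPropOn K] := by
  tfae_have 1 → 5 := by
    intro h E _ _ _ _ _ _ α _ _ _
    exact h E
  tfae_have 5 → 3 := by
    intro h E _ _ _ _ _ _ α hα hαi
    obtain ⟨S, hS⟩ : ∃ S, S = Submodule.span ℝ (range α) := ⟨_, rfl⟩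
    have hm : ∀ c, α c ∈ S := fun c => by
      rw [hS]
      exact Submodule.subset_span ⟨c, rfl⟩
    have h1 : Submodule.span ℝ (range fun c => (⟨α c, hm c⟩ : S)) = ⊤ := by
      rw [eq_top_iff]
      rintro ⟨x, hx⟩ -
      have h2 : ((Submodule.span ℝ (range fun c => (⟨α c, hm c⟩ : S))).map S.subtype) = S := by
        rw [Submodule.map_span]
        rw [← range_comp]
        exact hS.symm
      have h3 : x ∈ (Submodule.span ℝ (range fun c => (⟨α c, hm c⟩ : S))).map S.subtype := by
        rw [h2]
        exact hx
      obtain ⟨y, hy, hyx⟩ := h3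
      have h4 : y = ⟨x, hx⟩ := Subtype.ext hyx
      rw [← h4]
      exact hy
    have hαS : Continuous (fun c => (⟨α c, hm c⟩ : S)) := Continuous.subtype_mk hα _
    have hSm : TopologicalSpace.MetrizableSpace S := IsEmbedding.subtypeVal.metrizableSpace
    have h2 := h S (fun c => ⟨α c, hm c⟩) hαS
      (fun c c' hcc => hαi (congrArg Subtype.val hcc)) h1
    have h3 : IsCompact (T • range fun c => (⟨α c, hm c⟩ : S)) :=
      hT.smul_set (isCompact_range hαS)
    refine (approximable_of_subspace (h2 _ h3)).mono ?_
    rintro _ ⟨r, hr, _, ⟨c, rfl⟩, rfl⟩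
    exact ⟨r • (⟨α c, hm c⟩ : S), ⟨r, hr, _, ⟨c, rfl⟩, rfl⟩, rfl⟩
  tfae_have 3 → 1 := by
    intro h E _ _ _ _ _ _
    refine admissible_of_metrizable (fun F _ _ _ _ _ _ K hK => ?_) E
    exact approximable_of_scalarMul hK hT hTu fun α hα hαi => h (F × ℝ) α hα hαi
  tfae_have 1 → 4 := by
    intro h E F _ _ _ _ _ _ _ _ _ _ _ _ π α hc _ _ _ hα _
    exact h F _ ((isCompact_range hα).image hc)
  tfae_have 4 → 1 := by
    intro h E _ _ _ _ _ _
    refine admissible_of_metrizable (fun F _ _ _ _ _ _ K hK => ?_) E
    rcases K.eq_empty_or_nonempty with rfl | hne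
    · exact approximable_empty
    obtain ⟨f, hf, hfK⟩ := exists_cantor hK hne
    have h1 := h (F × ℝ) F (LinearMap.fst ℝ F ℝ) (fun c => (f c, io c)) continuous_fst
      isOpenMap_fst Prod.fst_surjective ?_ (hf.prodMk io_continuous)
      (fun c c' hcc => io_injective (congrArg Prod.snd hcc))
    · refine h1.mono ?_
      intro x hx
      rw [← hfK] at hx
      obtain ⟨c, rfl⟩ := hx
      exact ⟨_, ⟨c, rfl⟩, rfl⟩
    · rw [LinearMap.ker_fst, LinearMap.finrank_range_of_inj LinearMap.inr_injective]
      exact Module.finrank_self ℝ
  tfae_have 1 → 2 := by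
    intro h E _ _ _ _ _ _ α e hα _
    have h1 : IsCompact ((fun r : ℝ => r • e) '' T) :=
      hT.image (continuous_id.smul continuous_const)
    exact h E _ ((isCompact_range hα).add h1)
  tfae_have 2 → 1 := by
    intro h E _ _ _ _ _ _
    refine admissible_of_metrizable (fun F _ _ _ _ _ _ K hK => ?_) E
    exact approximable_of_scalarSums hK hT hTu fun β e hβ hβi => h (F × ℝ) β e hβ hβi
  tfae_have 1 → 6 := by
    intro h E _ _ _ _ _ _ _ N _
    exact h N
  tfae_have 6 → 1 := fun h E _ _ _ _ _ _ => admissible_of_closed h E
  tfae_have 1 → 7 := by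
    intro h E _ _ _ _ _ _ K hK
    exact (approximable_iff_simplexPropOn hK).1 (h E K hK)
  tfae_have 7 → 1 := by
    intro h E _ _ _ _ _ _ K hK
    exact (approximable_iff_simplexPropOn hK).2 (h E K hK)
  tfae_finish

end Pool.Agent.Results.MP_edf562_an.Stars
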