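import Pool.Agent.H31.AD.Fact

/-!
MP_edf562_an: approximability of a compact set `K` in a Hausdorff real topological vector space `E`
is a topological property of the pair `(E, K)`. It is equivalent to an approximate extension
property, and to approximate factorization of the inclusion `K → E` (by arbitrary continuous maps)
through compact subsets of `ℝⁿ`, through compact spaces with property C, through locally convex
spaces, and through open sets of Hausdorff spaces in which the image of `K` is approximable.

In particular, if `E` is homeomorphic (as a topological space) to a neighbourhood retract of an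
admissible space, then `E` is admissible.
-/

set_option autoImplicit false

open Topology Set Pointwise

namespace Pool.Agent.Results.MP_edf562_an.Topological

open Pool.Agent.H31.AD

universe u

theorem result {E : Type u} [AddCommGroup E] [Module ℝ E] [TopologicalSpace E]
    [IsTopologicalAddGroup E] [ContinuousSMul ℝ E] [T2Space E] {K : Set E} (hK : IsCompact K) :
    List.TFAE [
      -- (1)
      Approximable K,
      -- (2) approximate extension property
      ∀ U ∈ 𝓝 (0 : E), ∀ (X : Type u) [TopologicalSpace X] [CompactSpace X] [T2Space X]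
        (A : Set X) (f : X → E), IsClosed A → ContinuousOn f A → MapsTo f A K →
        ∃ g : X → E, Continuous g ∧ ∀ a ∈ A, f a - g a ∈ U,
      -- (3) factorization through compact subsets of `ℝⁿ`
      ∀ U ∈ 𝓝 (0 : E), ∃ (n : ℕ) (P : Set (Fin n → ℝ)) (i : K → P) (r : P → E),
        IsCompact P ∧ Continuous i ∧ Continuous r ∧ ∀ x : K, (x : E) - r (i x) ∈ U,
      -- (4) factorization through compact Hausdorff spaces with property C
      ∀ U ∈ 𝓝 (0 : E), ∃ (P : Type u) (_ : TopologicalSpace P) (_ : CompactSpace P)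
        (_ : T2Space P) (i : K → P) (r : P → E),
        PropertyC P ∧ Continuous i ∧ Continuous r ∧ ∀ x : K, (x : E) - r (i x) ∈ U,
      -- (5) factorization through locally convex spaces
      ∀ U ∈ 𝓝 (0 : E), ∃ (F : Type u) (_ : AddCommGroup F) (_ : Module ℝ F)
        (_ : TopologicalSpace F) (_ : IsTopologicalAddGroup F) (_ : ContinuousSMul ℝ F)
        (_ : T2Space F) (i : K → F) (r : F → E), LocallyConvexSpace ℝ F ∧
          Continuous i ∧ Continuous r ∧ ∀ x : K, (x : E) - r (i x) ∈ U,
      -- (6) factorization through open sets, the image of `K` being approximable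
      ∀ U ∈ 𝓝 (0 : E), ∃ (F : Type u) (_ : AddCommGroup F) (_ : Module ℝ F)
        (_ : TopologicalSpace F) (_ : IsTopologicalAddGroup F) (_ : ContinuousSMul ℝ F)
        (_ : T2Space F) (G : Set F) (i : K → G) (r : G → E), IsOpen G ∧
          Approximable (range fun x : K => (i x : F)) ∧
          Continuous i ∧ Continuous r ∧ ∀ x : K, (x : E) - r (i x) ∈ U] := by
  classical
  have hKc : CompactSpace K := isCompact_iff_compactSpace.1 hK
  tfae_have 1 → 2 := by
    intro h U hU X _ _ _ A f hA hf hfA
    obtain ⟨v, h1, h2, h3⟩ := h U hU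
    obtain ⟨S, hS⟩ : ∃ S, S = Submodule.span ℝ (v '' K) := ⟨_, rfl⟩
    have hfd : FiniteDimensional ℝ S := by rw [hS]; exact h2
    have hm : ∀ x ∈ K, v x ∈ S := fun x hx => by
      rw [hS]
      exact Submodule.subset_span ⟨x, hx, rfl⟩
    have hT : TietzeExtension S := TietzeExtension.of_tvs ℝ
    have hc : Continuous (fun a : A => (⟨v (f a), hm _ (hfA a.2)⟩ : S)) := by
      refine Continuous.subtype_mk ?_ _
      exact continuousOn_iff_continuous_domRestrict.1 (h1.comp hf hfA)
    obtain ⟨g, hg⟩ := ContinuousMap.exists_restrict_eq hA ⟨_, hc⟩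
    refine ⟨fun x => (g x : E), continuous_subtype_val.comp g.continuous, fun a ha => ?_⟩
    have h4 : g a = (⟨v (f a), hm _ (hfA ha)⟩ : S) := DFunLike.congr_fun hg ⟨a, ha⟩
    show f a - (g a : E) ∈ U
    rw [h4]
    exact h3 _ (hfA ha)
  tfae_have 2 → 5 := by
    intro h U hU
    have hιi := exists_cube K
    have hιc : Continuous (fun (x : K) (φ : C(K, unitInterval)) => φ x) :=
      continuous_pi fun φ => φ.continuous
    have hιe := hιc.isClosedEmbedding hιi
    obtain ⟨ι, hι⟩ : ∃ ι : K → (C(K, unitInterval) → unitInterval), ι = fun x φ => φ x := ⟨_, rfl⟩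
    rw [← hι] at hιi hιc hιe
    have hsec : ∀ a : range ι, ∃ x : K, ι x = a := fun a => a.2
    choose s hs using hsec
    have hsι : ∀ x : K, s ⟨ι x, x, rfl⟩ = x := fun x => hιi (hs _)
    have hsc : Continuous s := by
      have h1 : s = hιe.isEmbedding.toHomeomorph.symm := by
        funext a
        apply hιi
        rw [hs a]
        exact (congrArg Subtype.val (hιe.isEmbedding.toHomeomorph.apply_symm_apply a)).symm
      rw [h1]
      exact hιe.isEmbedding.toHomeomorph.symm.continuous
    obtain ⟨f, hf⟩ : ∃ f : (C(K, unitInterval) → unitInterval) → E,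
      f = fun a => if ha : a ∈ range ι then (s ⟨a, ha⟩ : E) else 0 := ⟨_, rfl⟩
    have hfs : ∀ a (ha : a ∈ range ι), f a = s ⟨a, ha⟩ := fun a ha => by
      rw [hf]
      simp only [ha, dif_pos]
    obtain ⟨g, hg, hgU⟩ := h U hU (C(K, unitInterval) → unitInterval) (range ι) f
      hιe.isClosed_range (by
        rw [continuousOn_iff_continuous_domRestrict]
        have h4 : (range ι).domRestrict f = fun a => (s a : E) := by
          funext a
          exact hfs a a.2
        rw [h4]
        exact continuous_subtype_val.comp hsc) (fun a ha => by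
        rw [hfs a ha]
        exact (s ⟨a, ha⟩).2)
    refine ⟨C(K, unitInterval) → ℝ, inferInstance, inferInstance, inferInstance, inferInstance,
      inferInstance, inferInstance, fun x φ => (φ x : ℝ),
      fun y => g fun φ => projIcc 0 1 zero_le_one (y φ), inferInstance, ?_, ?_, ?_⟩
    · exact continuous_pi fun φ => continuous_subtype_val.comp φ.continuous
    · refine hg.comp (continuous_pi fun φ => ?_)
      exact continuous_projIcc.comp (continuous_apply φ)
    · intro x
      have h1 : (fun φ : C(K, unitInterval) => projIcc (0 : ℝ) 1 zero_le_one (φ x : ℝ)) = ι x := by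
        funext φ
        rw [hι]
        exact projIcc_val _ (φ x)
      have h2 := hgU (ι x) ⟨x, rfl⟩
      rw [hfs _ ⟨x, rfl⟩, hsι x] at h2
      show (x : E) - g (fun φ : C(K, unitInterval) => projIcc (0 : ℝ) 1 zero_le_one (φ x : ℝ)) ∈ U
      rw [h1]
      exact h2
  tfae_have 5 → 6 := by
    intro h U hU
    obtain ⟨F, _, _, _, _, _, _, i, r, hF, hi, hr, hir⟩ := h U hU
    refine ⟨F, inferInstance, inferInstance, inferInstance, inferInstance, inferInstance,
      inferInstance, univ, fun x => ⟨i x, trivial⟩, fun y => r y.1, isOpen_univ, ?_,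
      Continuous.subtype_mk hi _, hr.comp continuous_subtype_val, hir⟩
    exact (simplexProp_of_locallyConvex).admissible _ (isCompact_range hi)
  tfae_have 6 → 3 := by
    intro h U hU
    obtain ⟨W, hWo, hW0, hWb, -, hWU⟩ := exists_balanced hU
    obtain ⟨F, _, _, _, _, _, _, G, i, r, hG, hF, hi, hr, hir⟩ := h W (hWo.mem_nhds hW0)
    have hL : IsCompact (range fun x : K => (i x : F)) :=
      isCompact_range (continuous_subtype_val.comp hi)
    have hLG : (range fun x : K => (i x : F)) ⊆ G := by
      rintro _ ⟨x, rfl⟩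
      exact (i x).2
    obtain ⟨V, hV, hVr⟩ := exists_unif hG hr hL hLG (hWo.mem_nhds hW0)
    have hV' : (fun w : F => -w) ⁻¹' V ∈ 𝓝 (0 : F) := by
      refine continuous_neg.continuousAt.preimage_mem_nhds ?_
      rwa [neg_zero]
    obtain ⟨v, h1, h2, h3⟩ := hF _ hV'
    obtain ⟨S, hS⟩ : ∃ S, S = Submodule.span ℝ (v '' range fun x : K => (i x : F)) := ⟨_, rfl⟩
    have hfd : FiniteDimensional ℝ S := by rw [hS]; exact h2
    have hvS : ∀ x : K, v (i x) ∈ S := fun x => by
      rw [hS]
      exact Submodule.subset_span ⟨_, ⟨x, rfl⟩, rfl⟩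
    have hvG : ∀ x : K, ∃ h : v (i x) ∈ G, r (i x) - r ⟨v (i x), h⟩ ∈ W := by
      intro x
      have h4 : -((i x : F) - v (i x)) ∈ V := h3 _ ⟨x, rfl⟩
      obtain ⟨h5, h6⟩ := hVr _ h4 (i x) ⟨x, rfl⟩
      have h7 : (i x : F) + -((i x : F) - v (i x)) = v (i x) := by abel
      have h8 : v (i x) ∈ G := by rw [← h7]; exact h5
      refine ⟨h8, ?_⟩
      have h9 : (⟨(i x : F) + -((i x : F) - v (i x)), h5⟩ : G) = ⟨v (i x), h8⟩ :=
        Subtype.ext h7
      rw [h9] at h6
      exact h6
    have hvG' : ∀ x : K, v (i x) ∈ G := fun x => (hvG x).1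
    have hvc : Continuous fun x : K => v (i x) :=
      h1.comp_continuous (continuous_subtype_val.comp hi) fun x => ⟨x, rfl⟩
    let e : S ≃L[ℝ] (Fin (Module.finrank ℝ S) → ℝ) :=
      (Module.finBasis ℝ S).equivFun.toContinuousLinearEquiv
    have hjc : Continuous fun x : K => e ⟨v (i x), hvS x⟩ :=
      e.continuous.comp (Continuous.subtype_mk hvc _)
    have hPG : ∀ p : (range fun x : K => e ⟨v (i x), hvS x⟩), ((e.symm p : S) : F) ∈ G := by
      rintro ⟨_, ⟨x, rfl⟩⟩
      show ((e.symm (e ⟨v (i x), hvS x⟩) : S) : F) ∈ G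
      rw [e.symm_apply_apply]
      exact hvG' x
    refine ⟨Module.finrank ℝ S, range fun x : K => e ⟨v (i x), hvS x⟩,
      fun x => ⟨e ⟨v (i x), hvS x⟩, x, rfl⟩, fun p => r ⟨((e.symm p : S) : F), hPG p⟩,
      isCompact_range hjc, Continuous.subtype_mk hjc _, ?_, ?_⟩
    · exact hr.comp (Continuous.subtype_mk (continuous_subtype_val.comp
        (e.symm.continuous.comp continuous_subtype_val)) _)
    · intro x
      have h4 : (⟨((e.symm (e ⟨v (i x), hvS x⟩) : S) : F), hPG ⟨_, x, rfl⟩⟩ : G) =
          ⟨v (i x), hvG' x⟩ := by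
        apply Subtype.ext
        show ((e.symm (e ⟨v (i x), hvS x⟩) : S) : F) = v (i x)
        rw [e.symm_apply_apply]
      show (x : E) - r ⟨((e.symm (e ⟨v (i x), hvS x⟩) : S) : F), hPG ⟨_, x, rfl⟩⟩ ∈ U
      rw [h4]
      have h5 := hWU _ (hir x) _ (hvG x).2
      rwa [sub_add_sub_cancel] at h5
  tfae_have 3 → 4 := by
    intro h U hU
    obtain ⟨n, P, i, r, hP, hi, hr, hir⟩ := h U hU
    have hPc : CompactSpace P := isCompact_iff_compactSpace.1 hP
    refine ⟨ULift.{u} P, inferInstance, inferInstance, inferInstance, fun x => ⟨i x⟩,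
      fun p => r p.down, ?_, continuous_uliftUp.comp hi, hr.comp continuous_uliftDown, hir⟩
    exact propertyC_of_injective n (fun p : ULift.{u} P => (p.down : Fin n → ℝ))
      (continuous_subtype_val.comp continuous_uliftDown) fun p q hpq =>
        ULift.down_injective (Subtype.ext hpq)
  tfae_have 4 → 1 := by
    intro h
    rw [approximable_iff]
    intro U hU
    obtain ⟨W, hWo, hW0, hWb, -, hWU⟩ := exists_balanced hU
    obtain ⟨P, _, _, _, i, r, hP, hi, hr, hir⟩ := h W (hWo.mem_nhds hW0)
    obtain ⟨g, hg, hgd, hgr⟩ := exists_finrank_of_propertyC hP hr (hWo.mem_nhds hW0)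
    refine ⟨fun x => g (i x), hg.comp hi, ?_, fun x => ?_⟩
    · refine Submodule.finiteDimensional_of_le (S₂ := Submodule.span ℝ (range g))
        (Submodule.span_mono ?_)
      rintro _ ⟨x, rfl⟩
      exact ⟨_, rfl⟩
    · have h5 := hWU _ (hir x) _ (hgr (i x))
      rwa [sub_add_sub_cancel] at h5
  tfae_finish

end Pool.Agent.Results.MP_edf562_an.Topological
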